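import Pool.Agent.R958.PTC.Pos

/-!
# MP_81329c_pr: parent-transfer clustering dynamics on forests with finite mean

For every `d ≥ 3` there is a translation-invariant initial configuration satisfying hypothesis (H)
with finite mean.  This disproves Q1 (the negated form asks for some `d`).

The definitions (`latticeGraph`, `nbhd`, `maxSet`, `pick`, `act`, `run`, `choiceLaw`, `IsRay`,
`OneEndedForest`, `IsParent`, `TranslationInvariant`, `HypH`) are in
`Pool/Agent/R958/PTC/Model.lean`.

Construction: random address system from three odometers (Haar measure on profinite integers) with
rapidly growing moduli `A_j`, `b_j`; on level `j` the vertices form long paths, attached to the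
straight part of the paths of level `j + 1`; the values decrease along the paths so slowly that
every vertex always sees its parent as the unique strict maximum of its neighbourhood.
Pieces A, C: helper706; D, E, F: helper608; geometry, model, assembly: helper958.
-/

open MeasureTheory
open scoped ENNReal

namespace Pool.Agent.Results.MP_81329c_pr.FiniteMeanParentTransfer

open PTC

theorem result (d : ℕ) (hd : 3 ≤ d) :
    ∃ (Ω : Type) (_ : MeasurableSpace Ω) (μ : Measure Ω) (_ : IsProbabilityMeasure μ)
      (C0 : Ω → (Fin d → ℤ) → ℝ≥0∞),
      Measurable C0 ∧ TranslationInvariant μ C0 ∧ HypH μ C0 ∧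
      ∀ x, ∫⁻ ω, C0 ω x ∂μ < ⊤ :=
  main d hd

end Pool.Agent.Results.MP_81329c_pr.FiniteMeanParentTransfer
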